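import Mathlib
import Pool.Agent.H13.Drc

namespace Pool.Agent.Results.MP_cecf76_co.PowerBounds
open Finset

/-- every sequence of `m` subsets of an `n`-set of size `> c n` has an `e`-intersecting index set
of size `k` -/
def Good (n m : ℕ) (c e : ℝ) (k : ℕ) : Prop :=
  ∀ A : Fin m → Finset (Fin n), (∀ i, c * n < (A i).card) →
    ∃ I : Finset (Fin m), I.card = k ∧ ∀ i ∈ I, ∀ j ∈ I, i ≠ j → e * n < (A i ∩ A j).card

noncomputable def f (n m : ℕ) (c e : ℝ) : ℕ := sSup {k | Good n m c e k}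

lemma bdd {n m : ℕ} {c e : ℝ} (hn : 1 ≤ n) (hc : c ≤ 1 / 2) : BddAbove {k | Good n m c e k} := by
  refine ⟨m, fun k hk => ?_⟩
  have n0 : (0 : ℝ) < n := by exact_mod_cast hn
  obtain ⟨I, rfl, -⟩ := hk (fun _ => univ) (fun _ => by simp; nlinarith)
  simpa using card_le_univ I

lemma le_f {n m : ℕ} {c e x : ℝ} (hn : 1 ≤ n) (hc : c ≤ 1 / 2)
    (h : ∀ A : Fin m → Finset (Fin n), (∀ i, c * n < (A i).card) → ∃ I : Finset (Fin m),
      x ≤ I.card ∧ ∀ i ∈ I, ∀ j ∈ I, i ≠ j → e * n < (A i ∩ A j).card) : x ≤ f n m c e := by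
  refine (Nat.le_ceil x).trans (Nat.cast_le.2 (le_csSup (bdd hn hc) fun A hA => ?_))
  obtain ⟨I, h1, h2⟩ := h A hA
  obtain ⟨J, hJ, e⟩ := exists_subset_card_eq (Nat.ceil_le.2 h1)
  exact ⟨J, e, fun i hi j hj => h2 i (hJ hi) j (hJ hj)⟩

lemma f_good {n m : ℕ} {c e : ℝ} (hn : 1 ≤ n) (hc : c ≤ 1 / 2) : Good n m c e (f n m c e) :=
  Nat.sSup_mem (s := {k | Good n m c e k}) ⟨0, fun _ _ => ⟨∅, rfl, by simp⟩⟩ (bdd hn hc)

lemma lower {n m : ℕ} {c e : ℝ} (hn : 1 ≤ n) (hm : 1 ≤ m) (he : 0 < e) (hec : e < c)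
    (hc : c ≤ 1 / 2) :
    c / 2 * (m : ℝ) ^ (1 - Real.log (1 / c) / Real.log (c / e)) ≤ f n m c e := by
  have c0 : 0 < c := he.trans hec
  have m1 : (1 : ℝ) ≤ m := by exact_mod_cast hm
  have m0 : (0 : ℝ) < m := by linarith
  have L : 0 < Real.log (c / e) := Real.log_pos ((one_lt_div he).2 hec)
  have lm : 0 ≤ Real.log m := Real.log_nonneg m1
  set k := ⌈Real.log m / Real.log (c / e)⌉₊ with hk
  have k1 : Real.log m / Real.log (c / e) ≤ k := Nat.le_ceil _
  have k2 : (k : ℝ) < Real.log m / Real.log (c / e) + 1 := Nat.ceil_lt_add_one (by positivity)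
  have a1 : (m : ℝ) * e ^ k ≤ c ^ k := by
    have : (m : ℝ) ≤ (c / e) ^ k := by
      rw [← Real.log_le_log_iff m0 (by positivity), Real.log_pow]
      rwa [div_le_iff₀ L] at k1
    rwa [div_pow, le_div_iff₀ (by positivity)] at this
  have a2 : c * (m : ℝ) ^ (1 - Real.log (1 / c) / Real.log (c / e)) ≤ m * c ^ k := by
    have lc : Real.log c < 0 := Real.log_neg c0 (by linarith)
    rw [← Real.log_le_log_iff (by positivity) (by positivity), Real.log_mul c0.ne' (by positivity),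
      Real.log_mul m0.ne' (by positivity), Real.log_rpow m0, Real.log_pow, one_div, Real.log_inv]
    have : (1 - -Real.log c / Real.log (c / e)) * Real.log m =
        Real.log m + Real.log m / Real.log (c / e) * Real.log c := by ring
    rw [this]
    nlinarith
  apply le_f hn hc
  intro A hA
  obtain ⟨I, h1, h2⟩ := H13.Drc.drc hn c0.le he.le A hA k
  refine ⟨I, le_trans ?_ h1, h2⟩
  nlinarith

lemma upper {c e : ℝ} (he : 0 < e) (hec : e < c) (hc : c ≤ 1 / 2) {n m : ℕ} (hm : 1 ≤ m)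
    (hn : 2 * (⌈2 / e⌉₊ + 1) * (Nat.log 2 m + 1) ≤ n) :
    (f n m c e : ℝ) ≤ 2 * (m : ℝ) ^ (1 - e ^ 2 / 4) := by
  set d := Nat.log 2 m + 1 with hd
  have d1 : 1 ≤ d := by omega
  have n1 : 1 ≤ n := le_trans (by nlinarith [Nat.zero_le ⌈2 / e⌉₊]) hn
  have m1 : m ≤ 2 ^ d := (Nat.lt_pow_succ_log_self (by norm_num) m).le
  have m2 : 2 ^ d ≤ 2 * m := by
    have := Nat.pow_log_le_self 2 (show m ≠ 0 by omega)
    rw [hd, pow_succ]; omega
  set R := (n - 1) / (2 * d) with hR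
  set p := (n - 1) % (2 * d) + 1 with hp
  have e1 : 2 * d * R + p = n := by
    have := Nat.div_add_mod (n - 1) (2 * d)
    rw [← hR] at this; omega
  have p1 : 1 ≤ p := by omega
  have p2 : p ≤ 2 * d := Nat.mod_lt _ (by omega)
  have R1 : ⌈2 / e⌉₊ ≤ R := by
    rw [hR, Nat.le_div_iff_mul_le (by omega)]
    have : ⌈2 / e⌉₊ * (2 * d) + 2 * d = 2 * (⌈2 / e⌉₊ + 1) * d := by ring
    omega
  have R2 : 2 ≤ e * R := by
    have := Nat.ceil_le.1 R1
    rwa [div_le_iff₀' he] at this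
  obtain ⟨v⟩ : Nonempty (Fin m ↪ (Fin d → Bool)) :=
    Function.Embedding.nonempty_of_card_le (by simpa using m1)
  let E : (((Fin d × Bool) × Fin R) ⊕ Fin p) ≃ Fin n :=
    Fintype.equivFinOfCardEq (by simp; rw [← e1]; ring)
  have cS : ∀ i j, ((H13.Drc.S (v i)).map E.toEmbedding ∩ (H13.Drc.S (v j)).map E.toEmbedding).card
      = R * H13.Drc.agree (v i) (v j) + p := by
    intro i j
    rw [← map_inter, card_map, H13.Drc.card_S]
  have ag : ∀ x : Fin d → Bool, H13.Drc.agree x x = d := fun x => by simp [H13.Drc.agree]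
  have en : (n : ℝ) = 2 * d * R + p := by exact_mod_cast e1.symm
  have p1' : (1 : ℝ) ≤ p := by exact_mod_cast p1
  have p2' : (p : ℝ) ≤ 2 * d := by exact_mod_cast p2
  have d0 : (0 : ℝ) ≤ d := by positivity
  have R0 : (0 : ℝ) ≤ R := by positivity
  obtain ⟨I, h1, h2⟩ := f_good (m := m) (e := e) n1 hc
    (fun i => (H13.Drc.S (v i)).map E.toEmbedding) (by
      intro i
      have := cS i i
      rw [inter_self, ag] at this
      rw [this]
      push_cast
      have : (0 : ℝ) ≤ d * R := by positivity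
      rw [en]
      nlinarith)
  have hs := H13.Drc.small he (I.map v) (by
    intro x hx y hy
    obtain ⟨i, hi, rfl⟩ := mem_map.1 hx
    obtain ⟨j, hj, rfl⟩ := mem_map.1 hy
    by_cases hij : i = j
    · rw [hij, ag]; nlinarith
    have := h2 i hi j hj hij
    rw [cS, en] at this
    push_cast at this
    by_contra hh
    have h3 := mul_le_mul_of_nonneg_left (not_le.1 hh).le R0
    have h4 := mul_le_mul_of_nonneg_left R2 d0
    nlinarith)
  rw [card_map, h1] at hs
  refine hs.trans ?_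
  have g0 : 0 ≤ 1 - e ^ 2 / 4 := by nlinarith
  have m0 : (0 : ℝ) < m := by exact_mod_cast hm
  calc (2 : ℝ) ^ d * Real.exp (-(e ^ 2 / 4 * d)) ≤ ((2 : ℝ) ^ d) ^ (1 - e ^ 2 / 4) := by
        rw [Real.rpow_sub (by positivity), Real.rpow_one, div_eq_mul_inv (2 ^ d), Real.exp_neg]
        refine mul_le_mul_of_nonneg_left (inv_anti₀ (by positivity) ?_) (by positivity)
        rw [Real.rpow_def_of_pos (by positivity), Real.log_pow]
        apply Real.exp_le_exp.2
        have := Real.log_two_lt_d9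
        have : (0 : ℝ) ≤ d * (e ^ 2 / 4) := by positivity
        nlinarith
    _ ≤ (2 * (m : ℝ)) ^ (1 - e ^ 2 / 4) := by
        apply Real.rpow_le_rpow (by positivity) _ g0
        exact_mod_cast m2
    _ ≤ _ := by
        rw [Real.mul_rpow (by norm_num) m0.le]
        gcongr
        calc (2 : ℝ) ^ (1 - e ^ 2 / 4) ≤ 2 ^ (1 : ℝ) :=
              Real.rpow_le_rpow_of_exponent_le (by norm_num) (by nlinarith)
          _ = 2 := Real.rpow_one 2

theorem result (c e : ℝ) (he : 0 < e) (hec : e < c) (hc : c ≤ 1 / 2) :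
    (∀ n m : ℕ, 1 ≤ n → 1 ≤ m →
      c / 2 * (m : ℝ) ^ (1 - Real.log (1 / c) / Real.log (c / e)) ≤ f n m c e) ∧
    (∃ K : ℕ, ∀ n m : ℕ, 1 ≤ m → K * (Nat.log 2 m + 1) ≤ n →
      (f n m c e : ℝ) ≤ 2 * (m : ℝ) ^ (1 - e ^ 2 / 4)) ∧
    (e ≤ c ^ 3 → ∀ n : ℕ, 1 ≤ n → c / 4 * √(n : ℝ) < f n n c e) ∧
    (∀ η : ℝ, 0 < η → ∃ m₀ : ℕ, ∀ n m : ℕ, m₀ ≤ m → m ≤ n → (f n m c e : ℝ) < η * m) := by
  have c0 : 0 < c := he.trans hec
  refine ⟨fun n m hn hm => lower hn hm he hec hc, ⟨_, fun n m hm hn => upper he hec hc hm hn⟩,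
    fun h3 n hn => ?_, fun η hη => ?_⟩
  · refine lt_of_lt_of_le ?_ (lower hn hn he hec hc)
    have n1 : (1 : ℝ) ≤ n := by exact_mod_cast hn
    have L : 0 < Real.log (c / e) := Real.log_pos ((one_lt_div he).2 hec)
    have : 1 / 2 ≤ 1 - Real.log (1 / c) / Real.log (c / e) := by
      have : Real.log ((1 / c) ^ 2) ≤ Real.log (c / e) := by
        apply Real.log_le_log (by positivity)
        rw [div_pow, div_le_div_iff₀ (by positivity) he]
        nlinarith
      rw [Real.log_pow] at this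
      have : Real.log (1 / c) / Real.log (c / e) ≤ 1 / 2 := by
        rw [div_le_iff₀ L]; push_cast at this; linarith
      linarith
    have := Real.rpow_le_rpow_of_exponent_le n1 this
    rw [← Real.sqrt_eq_rpow] at this
    have : 0 < √(n : ℝ) := Real.sqrt_pos.2 (by linarith)
    nlinarith
  · set K := 2 * (⌈2 / e⌉₊ + 1) with hK
    have t1 : ∀ᶠ m : ℕ in Filter.atTop, (m : ℝ) ^ (-(e ^ 2 / 4)) < η / 2 :=
      ((tendsto_rpow_neg_atTop (by positivity)).comp tendsto_natCast_atTop_atTop).eventually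
        (gt_mem_nhds (by positivity))
    obtain ⟨m₁, h1⟩ := Filter.eventually_atTop.1 t1
    refine ⟨max m₁ (2 ^ (2 * K)), fun n m hm hmn => ?_⟩
    have a1 : m₁ ≤ m := le_of_max_le_left hm
    have a2 : 2 ^ (2 * K) ≤ m := le_of_max_le_right hm
    have m1 : 1 ≤ m := le_trans Nat.one_le_two_pow a2
    have l1 : 2 * K ≤ Nat.log 2 m := Nat.le_log_of_pow_le (by norm_num) a2
    have l2 := Nat.pow_log_le_self 2 (show m ≠ 0 by omega)
    have l3 : K * (Nat.log 2 m + 1) ≤ 2 ^ Nat.log 2 m := by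
      have g : ∀ L : ℕ, L * (L + 1) ≤ 2 * 2 ^ L := by
        intro L
        induction L with
        | zero => simp
        | succ L ih =>
          have := Nat.lt_two_pow_self (n := L)
          rw [pow_succ]
          nlinarith
      have := g (Nat.log 2 m)
      nlinarith
    have u := upper he hec hc m1 (n := n) (by rw [← hK]; omega)
    have m0 : (0 : ℝ) < m := by exact_mod_cast m1
    rw [sub_eq_add_neg, Real.rpow_add m0, Real.rpow_one] at u
    have := h1 m a1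
    nlinarith

end Pool.Agent.Results.MP_cecf76_co.PowerBounds
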